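import Pool.Agent.MP_ea150c_mp.H49.SpecG

/-! Vanishing of Cech cohomology modulo `c` passes through extensions and quotients. -/

namespace Pool.Agent.MP_ea150c_mp.H83

open Pool.Agent.MP_ea150c_mp.H49

noncomputable section

set_option linter.unusedSectionVars false

variable {O I : Type} [CommRing O] [LinearOrder I] (c : O)
  {E E' E'' : Type} [AddCommGroup E] [Module O E] [AddCommGroup E'] [Module O E']
  [AddCommGroup E''] [Module O E'']

/-- No cohomology modulo `c` on sets of even cardinality. -/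
def HE (M : Finset I → Submodule O E) : Prop :=
  ∀ x ∈ Coch M, (∀ J, Odd J.card → x J = 0) → dl O E x ∈ sm c (Coch M) →
    ∃ z ∈ Coch M, x - dl O E z ∈ sm c (Coch M)

/-- No cohomology modulo `c`. -/
def HA (M : Finset I → Submodule O E) : Prop :=
  ∀ x ∈ Coch M, dl O E x ∈ sm c (Coch M) → ∃ z ∈ Coch M, x - dl O E z ∈ sm c (Coch M)

variable {c}

theorem HA.he {M : Finset I → Submodule O E} (h : HA c M) : HE c M :=
  fun x hx _ hd => h x hx hd

theorem sm_iff (M : Submodule O E) (x : E) : x ∈ sm c M ↔ ∃ y ∈ M, c • y = x := by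
  simp [sm]

theorem dl_apply (x : Finset I → E) (J : Finset I) :
    dl O E x J = ∑ j ∈ J, ((-1 : O) ^ (J.filter (· < j)).card) • x (J.erase j) := rfl

theorem dl_map (π : E →ₗ[O] E') (x : Finset I → E) (J : Finset I) :
    dl O E' (fun J => π (x J)) J = π (dl O E x J) := by
  simp [dl_apply]

theorem dl_congr {x y : Finset I → E} {J : Finset I}
    (h : ∀ j ∈ J, x (J.erase j) = y (J.erase j)) : dl O E x J = dl O E y J := by
  rw [dl_apply, dl_apply]
  exact Finset.sum_congr rfl fun j hj => by rw [h j hj]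

theorem lift_coch {M : Finset I → Submodule O E} {M' : Finset I → Submodule O E'}
    (π : E →ₗ[O] E') (hs : ∀ J, J.Nonempty → ∀ y ∈ M' J, ∃ x ∈ M J, π x = y)
    {y : Finset I → E'} (hy : y ∈ Coch M') :
    ∃ x ∈ Coch M, (∀ J, π (x J) = y J) ∧ ∀ J, y J = 0 → x J = 0 := by
  have key : ∀ J, ∃ x ∈ M J, π x = y J ∧ (y J = 0 → x = 0) := by
    intro J
    by_cases h : y J = 0
    · exact ⟨0, (M J).zero_mem, by rw [h, map_zero], fun _ => rfl⟩
    · have hJ : J.Nonempty := by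
        rw [Finset.nonempty_iff_ne_empty]
        rintro rfl
        exact h hy.1
      obtain ⟨x, hx, e⟩ := hs J hJ _ (hy.2 J)
      exact ⟨x, hx, e, fun h0 => (h h0).elim⟩
  choose x h1 h2 h3 using key
  exact ⟨x, ⟨h3 _ hy.1, h1⟩, h2, h3⟩

theorem coch_map {M : Finset I → Submodule O E} {M' : Finset I → Submodule O E'}
    (π : E →ₗ[O] E') (hm : ∀ J, J.Nonempty → ∀ x ∈ M J, π x ∈ M' J)
    {x : Finset I → E} (hx : x ∈ Coch M) : (fun J => π (x J)) ∈ Coch M' := by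
  refine ⟨by simp [hx.1], fun J => ?_⟩
  rcases J.eq_empty_or_nonempty with rfl | hJ
  · simp [hx.1]
  · exact hm J hJ _ (hx.2 J)

theorem coch_cut {M : Finset I → Submodule O E} (P : Finset I → Prop) [DecidablePred P]
    {x : Finset I → E} (hx : x ∈ Coch M) : (fun J => if P J then x J else 0) ∈ Coch M := by
  refine ⟨by simp [hx.1], fun J => ?_⟩
  by_cases h : P J
  · simpa [h] using hx.2 J
  · simp [h]

theorem odd_erase {J : Finset I} {j : I} (hj : j ∈ J) : Odd (J.erase j).card ↔ ¬ Odd J.card := by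
  have := Finset.card_erase_add_one hj
  rw [← this, Nat.odd_add_one, not_not]

/-- Extensions. -/
theorem HE.ext (c1 : C1) {M : Finset I → Submodule O E} {M' : Finset I → Submodule O E'}
    (hM : ∀ J J', J ⊆ J' → M J ≤ M J') (π : E →ₗ[O] E')
    (hm : ∀ J, J.Nonempty → ∀ x ∈ M J, π x ∈ M' J)
    (hs : ∀ J, J.Nonempty → ∀ y ∈ M' J, ∃ x ∈ M J, π x = y)
    (tf : ∀ e : E', c • e = 0 → e = 0) (h' : HE c M')
    (hk : HE c fun J => M J ⊓ LinearMap.ker π) : HE c M := by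
  classical
  intro x hx hodd hd
  obtain ⟨u, hu, eu⟩ := (sm_iff _ _).1 hd
  obtain ⟨z', hz', hr⟩ := h' (fun J => π (x J)) (coch_map π hm hx)
    (fun J hJ => by simp [hodd J hJ]) ((sm_iff _ _).2 ⟨_, coch_map π hm hu, by
      funext J
      rw [dl_map, ← eu]; simp⟩)
  obtain ⟨y', hy', ey⟩ := (sm_iff _ _).1 hr
  obtain ⟨z, hz, ez, z0⟩ := lift_coch π hs (coch_cut (fun J => Odd J.card) hz')
  obtain ⟨y, hy, ey2, y0⟩ := lift_coch π hs (coch_cut (fun J => ¬ Odd J.card) hy')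
  have hdz := (c1 O E I).2.2 M hM z hz
  have hdy := (c1 O E I).2.2 M hM y hy
  have dz0 : ∀ J, Odd J.card → dl O E z J = 0 := by
    intro J hJ
    rw [dl_congr (y := 0) (fun j hj => z0 _ (by simp [odd_erase hj, hJ]))]
    simp
  have hker : ∀ J, π ((x - dl O E z - c • y) J) = 0 := by
    intro J
    by_cases hJ : Odd J.card
    · simp [hodd J hJ, dz0 J hJ, y0 J (by simp [hJ])]
    · have e1 : π (dl O E z J) = dl O E' z' J := by
        rw [← dl_map]
        exact dl_congr fun j hj => by rw [ez]; simp [odd_erase hj, hJ]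
      have e2 := congrFun ey J
      simp only [Pi.smul_apply, Pi.sub_apply] at e2
      simp only [Pi.sub_apply, Pi.smul_apply, map_sub, map_smul, e1, ey2, if_pos hJ, e2, sub_self]
  have hx' : x - dl O E z - c • y ∈ Coch M :=
    Submodule.sub_mem _ (Submodule.sub_mem _ hx hdz) (Submodule.smul_mem _ _ hy)
  have edl : dl O E (x - dl O E z - c • y) = c • (u - dl O E y) := by
    rw [map_sub, map_sub, (c1 O E I).1, map_smul, ← eu, smul_sub, sub_zero]
  have hud : u - dl O E y ∈ Coch M := Submodule.sub_mem _ hu hdy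
  obtain ⟨z2, hz2, hr2⟩ := hk (x - dl O E z - c • y) ⟨hx'.1, fun J => ⟨hx'.2 J, hker J⟩⟩
    (fun J hJ => by simp [hodd J hJ, dz0 J hJ, y0 J (by simp [hJ])])
    ((sm_iff _ _).2 ⟨u - dl O E y, ⟨hud.1, fun J => ⟨hud.2 J, tf _ (by
      rw [← map_smul, ← Pi.smul_apply, ← edl, ← dl_map]
      simp only [hker]
      simp [dl_apply])⟩⟩, edl.symm⟩)
  obtain ⟨y2, hy2, ey3⟩ := (sm_iff _ _).1 hr2
  refine ⟨z + z2, Submodule.add_mem _ hz ⟨hz2.1, fun J => (hz2.2 J).1⟩,
    (sm_iff _ _).2 ⟨y + y2, Submodule.add_mem _ hy ⟨hy2.1, fun J => (hy2.2 J).1⟩, ?_⟩⟩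
  rw [smul_add, ey3, map_add]; abel

theorem HE.zero {M : Finset I → Submodule O E} (h : ∀ J, J.Nonempty → ∀ x ∈ M J, x = 0) :
    HE c M := by
  intro x hx _ _
  have : x = 0 := by
    funext J
    rcases J.eq_empty_or_nonempty with rfl | hJ
    · exact hx.1
    · exact h J hJ _ (hx.2 J)
  exact ⟨0, Submodule.zero_mem _, by rw [this, map_zero, sub_zero]; exact Submodule.zero_mem _⟩

theorem dl_pi {κ : Type} (x : Finset I → κ → E) (J : Finset I) (i : κ) :
    dl O (κ → E) x J i = dl O E (fun J => x J i) J :=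
  (dl_map (LinearMap.proj i : (κ → E) →ₗ[O] E) x J).symm

theorem pi_aux {κ : Type} {M : κ → Finset I → Submodule O E} {x : Finset I → κ → E}
    (hx : x ∈ Coch fun J => Submodule.pi Set.univ fun i => M i J) (i : κ) :
    (fun J => x J i) ∈ Coch (M i) :=
  ⟨congrFun hx.1 i, fun J => hx.2 J i (Set.mem_univ _)⟩

theorem pi_aux2 {κ : Type} {M : κ → Finset I → Submodule O E} {x : Finset I → κ → E}
    (hd : dl O _ x ∈ sm c (Coch fun J => Submodule.pi Set.univ fun i => M i J)) (i : κ) :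
    dl O E (fun J => x J i) ∈ sm c (Coch (M i)) := by
  obtain ⟨u, hu, eu⟩ := (sm_iff _ _).1 hd
  refine (sm_iff _ _).2 ⟨_, pi_aux hu i, ?_⟩
  funext J
  rw [← dl_pi, ← eu]; rfl

theorem pi_aux3 {κ : Type} {M : κ → Finset I → Submodule O E} {x : Finset I → κ → E}
    (h : ∀ i, ∃ z ∈ Coch (M i), (fun J => x J i) - dl O E z ∈ sm c (Coch (M i))) :
    ∃ z ∈ Coch fun J => Submodule.pi Set.univ fun i => M i J,
      x - dl O _ z ∈ sm c (Coch fun J => Submodule.pi Set.univ fun i => M i J) := by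
  choose z hz hr using h
  choose y hy ey using fun i => (sm_iff _ _).1 (hr i)
  refine ⟨fun J i => z i J, ⟨funext fun i => (hz i).1, fun J i _ => (hz i).2 J⟩,
    (sm_iff _ _).2 ⟨fun J i => y i J, ⟨funext fun i => (hy i).1, fun J i _ => (hy i).2 J⟩, ?_⟩⟩
  funext J i
  have := congrFun (ey i) J
  simp only [Pi.smul_apply, Pi.sub_apply] at this ⊢
  rw [this, dl_pi]

/-- Products. -/
theorem HE.pi {κ : Type} {M : κ → Finset I → Submodule O E} (h : ∀ i, HE c (M i)) :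
    HE c fun J => Submodule.pi Set.univ fun i => M i J :=
  fun _ hx ho hd => pi_aux3 fun i =>
    h i _ (pi_aux hx i) (fun J hJ => congrFun (ho J hJ) i) (pi_aux2 hd i)

theorem HA.pi {κ : Type} {M : κ → Finset I → Submodule O E} (h : ∀ i, HA c (M i)) :
    HA c fun J => Submodule.pi Set.univ fun i => M i J :=
  fun _ hx hd => pi_aux3 fun i => h i _ (pi_aux hx i) (pi_aux2 hd i)

/-- Quotients. -/
theorem HA.quot (c1 : C1) {N' : Finset I → Submodule O E'} {N : Finset I → Submodule O E}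
    (hN : ∀ J J', J ⊆ J' → N J ≤ N J')
    (κ : E' →ₗ[O] E) (q : E →ₗ[O] E'') (hκ : ∀ J, J.Nonempty → ∀ x ∈ N' J, κ x ∈ N J)
    (hq : ∀ x, q (κ x) = 0) (hinj : ∀ x, κ x = 0 → x = 0)
    (hex : ∀ J, J.Nonempty → ∀ x ∈ N J, q x = 0 → ∃ y ∈ N' J, κ y = x)
    (tf : ∀ e : E'', c • e = 0 → e = 0) (h' : HA c N') (h : HA c N) :
    HA c fun J => (N J).map q := by
  intro x'' hx'' hd
  have hs : ∀ J, J.Nonempty → ∀ y ∈ (N J).map q, ∃ x ∈ N J, q x = y :=
    fun J _ y hy => Submodule.mem_map.1 hy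
  have hs' : ∀ J, J.Nonempty → ∀ y ∈ N J ⊓ LinearMap.ker q, ∃ x ∈ N' J, κ x = y :=
    fun J hJ y hy => hex J hJ y hy.1 hy.2
  have hm : ∀ J, J.Nonempty → ∀ x ∈ N J, q x ∈ (N J).map q :=
    fun J _ x hx => Submodule.mem_map_of_mem hx
  obtain ⟨y'', hy'', ey⟩ := (sm_iff _ _).1 hd
  obtain ⟨x, hx, ex, -⟩ := lift_coch q hs hx''
  obtain ⟨y, hy, ey2, -⟩ := lift_coch q hs hy''
  have hdx := (c1 O E I).2.2 N hN x hx
  have hdy := (c1 O E I).2.2 N hN y hy
  have h1 : dl O E x - c • y ∈ Coch N := Submodule.sub_mem _ hdx (Submodule.smul_mem _ _ hy)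
  have exf : (fun J => q (x J)) = x'' := funext ex
  have k1 : ∀ J, q ((dl O E x - c • y) J) = 0 := by
    intro J
    simp only [Pi.sub_apply, Pi.smul_apply, map_sub, map_smul, ← dl_map, exf, ey2, ← ey, sub_self]
  obtain ⟨ν, hν, eν, -⟩ := lift_coch (M' := fun J => N J ⊓ LinearMap.ker q) κ hs'
    ⟨h1.1, fun J => ⟨h1.2 J, k1 J⟩⟩
  have e3 : ∀ J, κ (dl O E' ν J) = -(c • dl O E y J) := by
    intro J
    rw [← dl_map, funext eν, map_sub, (c1 O E I).1, map_smul]; simp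
  have k2 : ∀ J, q (dl O E y J) = 0 := by
    intro J
    apply tf
    have := hq (dl O E' ν J)
    rw [e3, map_neg, neg_eq_zero, map_smul] at this
    exact this
  obtain ⟨μ', hμ', eμ', -⟩ := lift_coch (M' := fun J => N J ⊓ LinearMap.ker q) κ hs'
    ⟨hdy.1, fun J => ⟨hdy.2 J, k2 J⟩⟩
  obtain ⟨μ, hμ, hr⟩ := h' ν hν ((sm_iff _ _).2 ⟨-μ', Submodule.neg_mem _ hμ', by
    funext J
    rw [← sub_eq_zero]
    apply hinj
    simp [e3, eμ']⟩)
  obtain ⟨μ2, hμ2, e4⟩ := (sm_iff _ _).1 hr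
  have hκμ := coch_map κ hκ hμ
  obtain ⟨γ, hγ, hr2⟩ := h (x - fun J => κ (μ J)) (Submodule.sub_mem _ hx hκμ)
    ((sm_iff _ _).2 ⟨y + fun J => κ (μ2 J), Submodule.add_mem _ hy (coch_map κ hκ hμ2), by
      funext J
      have a1 := congrFun e4 J
      have a2 := eν J
      simp only [Pi.sub_apply, Pi.smul_apply] at a1 a2
      simp only [map_sub, Pi.sub_apply, Pi.smul_apply, Pi.add_apply, smul_add, dl_map,
        ← map_smul, a1, a2]
      abel⟩)
  obtain ⟨γ2, hγ2, e5⟩ := (sm_iff _ _).1 hr2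
  refine ⟨_, coch_map q hm hγ, (sm_iff _ _).2 ⟨_, coch_map q hm hγ2, ?_⟩⟩
  funext J
  have a1 := congrFun e5 J
  simp only [Pi.sub_apply, Pi.smul_apply] at a1 ⊢
  rw [← map_smul, a1, dl_map, map_sub, map_sub, hq, ex, sub_zero]

end

end Pool.Agent.MP_ea150c_mp.H83
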