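import Pool.Agent.MP_ea150c_mp.H20.SpecM

/-! Relabelling of the vertices and change of the field. -/

namespace Pool.Agent.MP_ea150c_mp.H83

open Finset H20

variable {V W E : Type} [Fintype V] [DecidableEq V] [Fintype W] [DecidableEq W] [Fintype E]
  [DecidableEq E]

omit [Fintype V] [DecidableEq V] [Fintype W] [DecidableEq W] [Fintype E] [DecidableEq E] in
theorem conn_map (φ : V ≃ W) {s t : E → V} {T : Finset E} (h : Conn s t T) :
    Conn (φ ∘ s) (φ ∘ t) T := by
  intro u v
  obtain ⟨u, rfl⟩ := φ.surjective u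
  obtain ⟨v, rfl⟩ := φ.surjective v
  induction h u v with
  | rel a b h =>
    obtain ⟨e, he, rfl, rfl⟩ := h
    exact .rel _ _ ⟨e, he, rfl, rfl⟩
  | refl a => exact .refl _
  | symm a b _ ih => exact .symm _ _ ih
  | trans a b c _ _ ih ih' => exact .trans _ _ _ ih ih'

omit [DecidableEq V] [DecidableEq W] in
theorem xg_map (φ : V ≃ W) (s t : E → V) (F : Type) [Field F] :
    XG (φ ∘ s) (φ ∘ t) F = XG s t F := by
  have h : IsTree (φ ∘ s) (φ ∘ t) = IsTree s t := by
    funext T
    refine propext (and_congr ⟨fun h => ?_, conn_map φ⟩ (by rw [Fintype.card_congr φ]))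
    simpa [← Function.comp_assoc] using conn_map φ.symm h
  unfold XG Psi
  rw [h]

omit [DecidableEq E] in
theorem sum_deg (s t : E → V) : ∑ v, deg s t v = 2 * Fintype.card E := by
  simp only [deg, sum_add_distrib]
  rw [← card_eq_sum_card_fiberwise (s := univ) (f := s) fun _ _ => mem_univ _,
    ← card_eq_sum_card_fiberwise (s := univ) (f := t) fun _ _ => mem_univ _, card_univ, two_mul]

theorem sTrans : STrans := by
  intro V E _ _ _ _ s t
  refine ⟨fun h h5 => ?_, fun F F' _ _ f => ?_⟩
  · have h4 : (univ.filter fun v => deg s t v = 3).card = 4 := by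
      have h1 : ∑ v, (deg s t v + if deg s t v = 3 then 1 else 0) = ∑ _v : V, 4 :=
        sum_congr rfl fun v _ => by rcases h.degs v with e | e <;> simp [e]
      rw [sum_add_distrib, sum_deg, ← card_filter, sum_const, card_univ, smul_eq_mul] at h1
      have := h.card
      omega
    obtain ⟨r, hr⟩ := card_pos.1 (h4 ▸ by norm_num : 0 < (univ.filter fun v => deg s t v = 3).card)
    obtain ⟨m, hm⟩ : ∃ m, Fintype.card V = m + 1 := ⟨Fintype.card V - 1, by omega⟩
    let ψ : V ≃ Option (Fin m) := Fintype.equivOfCardEq (by simpa using hm)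
    let φ : V ≃ Option (Fin m) := ψ.trans (Equiv.swap (ψ r) none)
    have hφ : φ.symm none = r := φ.symm_apply_eq.2 (by simp [φ])
    have hd : ∀ N0 v, (H49.PG.mk (φ ∘ s) (φ ∘ t) N0).deg v = deg s t (φ.symm v) := fun N0 v => by
      simp only [H49.PG.deg, deg, Function.comp, φ.eq_symm_apply]
    refine ⟨m, ⟨φ ∘ s, φ ∘ t, univ.filter fun i => deg s t (φ.symm (some i)) = 3⟩,
      ⟨by simp; omega, fun e he => h.noloop e (φ.injective he), fun e e' he => h.simple e e' ?_,
        by rw [hd, hφ]; exact (mem_filter.1 hr).2, ?_, fun v => ?_⟩,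
      by have := h.card; omega, conn_map φ h.conn, xg_map φ s t⟩
    · simpa only [Function.comp, Sym2.eq_iff, φ.injective.eq_iff] using he
    · have h1 : (univ.filter fun v => deg s t v = 3).card =
          ∑ o : Option (Fin m), if deg s t (φ.symm o) = 3 then 1 else 0 := by
        rw [card_filter, ← φ.symm.sum_comp]
      rw [Fintype.sum_option, hφ, if_pos (mem_filter.1 hr).2, ← card_filter, h4] at h1
      dsimp only
      omega
    · rw [hd]
      rcases h.degs (φ.symm (some v)) with e | e <;> simp [e]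
  · refine Nat.card_congr (Equiv.subtypeEquiv (Equiv.piCongrRight fun _ => f.toEquiv) fun α => ?_)
    rw [← map_eq_zero_iff f f.injective]
    simp [Psi]

end Pool.Agent.MP_ea150c_mp.H83
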