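import Pool.Agent.MP_ea150c_mp.H49.SpecK

/-! Twisted facts in the standard chart (row S2). -/

namespace Pool.Agent.MP_ea150c_mp.H83

open Pool.Agent.MP_ea150c_mp.H49

noncomputable section

set_option linter.unusedSectionVars false

section Gen
variable (p : ℕ) [Fact p.Prime] {ι : Type} [Fintype ι] [DecidableEq ι]
  {A : Type} [CommRing A] [Algebra ℤ_[p] A]

/-- The box of summation. -/
def Bx (l' : ι → ℕ) : Finset (ι → ℕ) := Fintype.piFinset (fun i => Finset.range (p * (l' i + 1)))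

theorem ysh_apply (i : ι) (b : PS ι A) (l : ι → ℕ) :
    ysh A i b l = if l i = 0 then 0 else b (l - Pi.single i 1) := rfl

theorem DOp_apply (d : A →ₗ[ℤ_[p]] A) (f : ι → A) (b : PS ι A) (l : ι → ℕ) :
    DOp p d f b l = d (b l) + ∑ i, d (f i) * ysh A i b l := by
  simp [DOp, cw, LinearMap.sum_apply, Finset.sum_apply]

theorem thOp_apply (f : ι → A) (i : ι) (b : PS ι A) (l : ι → ℕ) :
    thOp f i b l = ((l i + 1 : ℕ) : A) * b l + f i * ysh A i b l := rfl

theorem PsiOp_apply (ψ : A →ₗ[ℤ_[p]] A) (f G : ι → A) (b : PS ι A) (l' : ι → ℕ) :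
    PsiOp p ψ f G b l' = ∑ l ∈ Bx p l',
      ψ (Ker p f G l' l * b l) := rfl

theorem ysh_comm (i j : ι) (b : PS ι A) (l : ι → ℕ) :
    ysh A i (ysh A j b) l = ysh A j (ysh A i b) l := by
  by_cases hij : i = j
  · subst hij; rfl
  have hji : j ≠ i := fun h => hij h.symm
  simp only [ysh_apply, Pi.sub_apply, Pi.single_eq_of_ne hij, Pi.single_eq_of_ne hji, Nat.sub_zero]
  have e : l - Pi.single i 1 - Pi.single j 1 = l - Pi.single j 1 - Pi.single i 1 := by
    ext t; simp only [Pi.sub_apply]; omega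
  by_cases h1 : l i = 0 <;> by_cases h2 : l j = 0 <;> simp [h1, h2, e]

theorem ysh_map (L : A →ₗ[ℤ_[p]] A) (i : ι) (b : PS ι A) (l : ι → ℕ) :
    ysh A i (fun l => L (b l)) l = L (ysh A i b l) := by
  simp only [ysh_apply]; split_ifs <;> simp

theorem ysh_DOp (d : A →ₗ[ℤ_[p]] A) (f : ι → A) (i : ι) (b : PS ι A) (l : ι → ℕ) :
    ysh A i (DOp p d f b) l = d (ysh A i b l) + ∑ j, d (f j) * ysh A i (ysh A j b) l := by
  rw [ysh_apply, ysh_apply i b]
  by_cases h : l i = 0
  · simp [h, ysh_apply i]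
  · simp only [if_neg h, DOp_apply, ysh_apply i]

theorem ysh_thOp (f : ι → A) (i j : ι) (b : PS ι A) (l : ι → ℕ) :
    ysh A j (thOp f i b) l = ((l i + 1 : ℕ) : A) * ysh A j b l -
      (if j = i then ysh A i b l else 0) + f i * ysh A j (ysh A i b) l := by
  by_cases h : l j = 0
  · by_cases hji : j = i
    · subst hji; simp [h, ysh_apply j]
    · simp [h, ysh_apply j, hji]
  · simp only [ysh_apply j, if_neg h, thOp_apply]
    by_cases hji : j = i
    · subst hji
      have e : ((l - Pi.single j 1 : ι → ℕ) j + 1 : ℕ) = l j := by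
        simp only [Pi.sub_apply, Pi.single_eq_same]; omega
      rw [e]
      simp only [if_true, ysh_apply j b l, if_neg h]
      push_cast; ring
    · have e : (l - Pi.single j 1 : ι → ℕ) i = l i := by
        have : i ≠ j := fun h => hji h.symm
        simp [Pi.single_eq_of_ne this]
      rw [e]; simp [hji]

variable {p}

theorem der_one {d : A →ₗ[ℤ_[p]] A} (hd : ∀ a b, d (a * b) = d a * b + a * d b) : d 1 = 0 := by
  have := hd 1 1
  simp only [mul_one, one_mul] at this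
  exact left_eq_add.mp this

theorem der_nat {d : A →ₗ[ℤ_[p]] A} (n : ℕ) (a : A) : d ((n : A) * a) = (n : A) * d a := by
  rw [← nsmul_eq_mul, ← nsmul_eq_mul, map_nsmul]

theorem der_prod {d : A →ₗ[ℤ_[p]] A} (hd : ∀ a b, d (a * b) = d a * b + a * d b)
    (s : Finset ι) (g : ι → A) :
    d (∏ i ∈ s, g i) = ∑ i ∈ s, d (g i) * ∏ j ∈ s.erase i, g j := by
  induction s using Finset.induction_on with
  | empty => simp [der_one hd]
  | insert a s ha ih =>
    rw [Finset.prod_insert ha, hd, ih, Finset.sum_insert ha, Finset.erase_insert ha,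
      Finset.mul_sum]
    congr 1
    refine Finset.sum_congr rfl fun i hi => ?_
    have hne : a ≠ i := fun h => ha (h ▸ hi)
    rw [Finset.erase_insert_of_ne hne, Finset.prod_insert (fun h => ha (Finset.mem_of_mem_erase h))]
    ring

theorem DOp_smul {d : A →ₗ[ℤ_[p]] A} (hd : ∀ a b, d (a * b) = d a * b + a * d b) (f : ι → A)
    (a : A) (b : PS ι A) : DOp p d f (a • b) = d a • b + a • DOp p d f b := by
  ext l
  simp only [DOp_apply, map_smul, Pi.add_apply, Pi.smul_apply, smul_eq_mul, hd, mul_add,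
    Finset.mul_sum]
  rw [add_assoc]
  congr 2
  exact Finset.sum_congr rfl fun i _ => by ring

theorem DOp_comm {d d' : A →ₗ[ℤ_[p]] A} (hd : ∀ a b, d (a * b) = d a * b + a * d b)
    (hd' : ∀ a b, d' (a * b) = d' a * b + a * d' b) (hc : ∀ a, d (d' a) = d' (d a)) (f : ι → A)
    (b : PS ι A) : DOp p d f (DOp p d' f b) = DOp p d' f (DOp p d f b) := by
  ext l
  have key : ∀ d d' : A →ₗ[ℤ_[p]] A, (∀ a b, d (a * b) = d a * b + a * d b) →
      DOp p d f (DOp p d' f b) l = d (d' (b l)) + ∑ j, d (d' (f j)) * ysh A j b l +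
        (∑ j, d' (f j) * d (ysh A j b l) + ∑ j, d (f j) * d' (ysh A j b l)) +
        ∑ i, ∑ j, d (f i) * d' (f j) * ysh A i (ysh A j b) l := by
    intro d d' hd
    rw [DOp_apply, DOp_apply]
    simp only [ysh_DOp, map_add, map_sum, hd, mul_add, Finset.mul_sum, Finset.sum_add_distrib,
      mul_assoc]
    ring
  rw [key d d' hd, key d' d hd', hc (b l)]
  simp only [hc]
  congr 1
  · rw [add_comm (∑ j, d' (f j) * d (ysh A j b l))]
  · rw [Finset.sum_comm]
    refine Finset.sum_congr rfl fun i _ => Finset.sum_congr rfl fun j _ => ?_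
    rw [ysh_comm]; ring

theorem DOp_thOp {d : A →ₗ[ℤ_[p]] A} (hd : ∀ a b, d (a * b) = d a * b + a * d b) (f : ι → A)
    (i : ι) (b : PS ι A) : DOp p d f (thOp f i b) = thOp f i (DOp p d f b) := by
  ext l
  rw [DOp_apply, thOp_apply, thOp_apply, DOp_apply, ysh_DOp, map_add, der_nat, hd]
  simp only [ysh_thOp, mul_add, mul_sub, Finset.sum_add_distrib, Finset.sum_sub_distrib, mul_ite,
    mul_zero, Finset.sum_ite_eq', Finset.mem_univ, if_true, Finset.mul_sum]
  have e1 : ∑ j, d (f j) * (((l i + 1 : ℕ) : A) * ysh A j b l) =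
      ∑ j, ((l i + 1 : ℕ) : A) * (d (f j) * ysh A j b l) :=
    Finset.sum_congr rfl fun j _ => by ring
  have e2 : ∑ j, d (f j) * (f i * ysh A j (ysh A i b) l) =
      ∑ j, f i * (d (f j) * ysh A i (ysh A j b) l) :=
    Finset.sum_congr rfl fun j _ => by rw [ysh_comm]; ring
  rw [e1, e2]; ring

variable (p) in
/-- The product of the kernels away from `i`. -/
def Rest (f G : ι → A) (l' l : ι → ℕ) (i : ι) : A :=
  ∏ j ∈ Finset.univ.erase i, kap p (l' j) (l j) (f j) (G j)

theorem Ker_eq (f G : ι → A) (l' l : ι → ℕ) (i : ι) :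
    Ker p f G l' l = kap p (l' i) (l i) (f i) (G i) * Rest p f G l' l i :=
  (Finset.mul_prod_erase Finset.univ (fun j => kap p (l' j) (l j) (f j) (G j))
    (Finset.mem_univ i)).symm

theorem Ker_succ (f G : ι → A) (l' l : ι → ℕ) (i : ι) :
    Ker p f G l' (l + Pi.single i 1) =
      kap p (l' i) (l i + 1) (f i) (G i) * Rest p f G l' l i := by
  rw [Ker_eq f G l' _ i]
  congr 1
  · simp
  · refine Finset.prod_congr rfl fun j hj => ?_
    simp [Pi.single_eq_of_ne (Finset.ne_of_mem_erase hj)]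

theorem Ker_pred (f G : ι → A) (l' l : ι → ℕ) (i : ι) (h : l' i ≠ 0) :
    Ker p f G (l' - Pi.single i 1) l =
      kapm p (l' i) (l i) (f i) (G i) * Rest p f G l' l i := by
  rw [Ker_eq f G _ _ i]
  congr 1
  · simp [kapm, h]
  · refine Finset.prod_congr rfl fun j hj => ?_
    simp [Pi.single_eq_of_ne (Finset.ne_of_mem_erase hj)]

theorem Ker_zero {f G : ι → A}
    (hz : ∀ i m' m, p * (m' + 1) ≤ m → kap p m' m (f i) (G i) = 0) (l' l : ι → ℕ)
    (h : l ∉ Bx p l') :
    Ker p f G l' l = 0 := by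
  simp only [Bx, Fintype.mem_piFinset, Finset.mem_range, not_forall, not_lt] at h
  obtain ⟨i, hi⟩ := h
  rw [Ker_eq f G l' l i, hz i _ _ hi, zero_mul]

theorem sum_pred {f G : ι → A}
    (hz : ∀ i m' m, p * (m' + 1) ≤ m → kap p m' m (f i) (G i) = 0) (ψ : A →ₗ[ℤ_[p]] A)
    (c : PS ι A) (l' : ι → ℕ) (i : ι) :
    ∑ l ∈ Bx p l',
      ψ (kapm p (l' i) (l i) (f i) (G i) * Rest p f G l' l i * c l) =
      ysh A i (PsiOp p ψ f G c) l' := by
  rw [ysh_apply]
  by_cases h : l' i = 0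
  · simp [h, kapm]
  rw [if_neg h, PsiOp_apply]
  simp only [← Ker_pred f G l' _ i h]
  symm
  refine Finset.sum_subset ?_ ?_
  · intro l hl
    simp only [Bx, Fintype.mem_piFinset, Finset.mem_range] at hl ⊢
    intro j
    refine lt_of_lt_of_le (hl j) (Nat.mul_le_mul_left _ ?_)
    simp only [Pi.sub_apply]; omega
  · intro l _ hl
    rw [Ker_zero hz _ _ hl, zero_mul, map_zero]

theorem sum_shift {f G : ι → A}
    (hz : ∀ i m' m, p * (m' + 1) ≤ m → kap p m' m (f i) (G i) = 0) (ψ : A →ₗ[ℤ_[p]] A)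
    (a : A) (b : PS ι A) (l' : ι → ℕ) (i : ι) :
    ∑ l ∈ Bx p l',
      ψ (Ker p f G l' l * (a * ysh A i b l)) =
    ∑ l ∈ Bx p l',
      ψ (Ker p f G l' (l + Pi.single i 1) * (a * b l)) := by
  have inj : Function.Injective (fun l : ι → ℕ => l + Pi.single i 1) := add_left_injective _
  have e : ∑ l ∈ Bx p l',
      ψ (Ker p f G l' (l + Pi.single i 1) * (a * b l)) =
      ∑ l ∈ (Bx p l').map ⟨_, inj⟩,
        ψ (Ker p f G l' l * (a * ysh A i b l)) := by
    rw [Finset.sum_map]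
    refine Finset.sum_congr rfl fun l _ => ?_
    simp [ysh_apply]
  rw [e]
  refine Finset.sum_congr_of_eq_on_inter ?_ ?_ (fun _ _ _ => rfl)
  · intro l hl hn
    by_cases h : l i = 0
    · simp [ysh_apply, h]
    · exfalso
      apply hn
      simp only [Finset.mem_map, Function.Embedding.coeFn_mk]
      refine ⟨l - Pi.single i 1, ?_, ?_⟩
      · simp only [Bx, Fintype.mem_piFinset, Finset.mem_range] at hl ⊢
        intro j
        exact lt_of_le_of_lt (Nat.sub_le _ _) (hl j)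
      · ext j
        by_cases hj : j = i
        · subst hj; simp only [Pi.add_apply, Pi.sub_apply, Pi.single_eq_same]; omega
        · simp [Pi.single_eq_of_ne hj]
  · intro l _ hn
    rw [Ker_zero hz _ _ hn, zero_mul, map_zero]

theorem Psi_phi (ψ : A →ₗ[ℤ_[p]] A) (f G : ι → A) (a a' : A) (h : ∀ b, ψ (a' * b) = a * ψ b)
    (b : PS ι A) : PsiOp p ψ f G (a' • b) = a • PsiOp p ψ f G b := by
  ext l'
  simp only [PsiOp_apply, Pi.smul_apply, smul_eq_mul, Finset.mul_sum]
  refine Finset.sum_congr rfl fun l _ => ?_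
  rw [← h]; congr 1; ring

theorem padic_smul (a : A) : (p : ℤ_[p]) • a = (p : A) * a := by
  rw [Nat.cast_smul_eq_nsmul, nsmul_eq_mul]

theorem Psi_th {f G F : ι → A}
    (hz : ∀ i m' m, p * (m' + 1) ≤ m → kap p m' m (f i) (G i) = 0)
    (he : ∀ i m' m, ((m + 1 : ℕ) : A) * kap p m' m (f i) (G i) + f i * kap p m' (m + 1) (f i) (G i)
      = p * (((m' + 1 : ℕ) : A) * kap p m' m (f i) (G i) + F i * kapm p m' m (f i) (G i)))
    (ψ : A →ₗ[ℤ_[p]] A) (hF : ∀ i b, ψ (F i * b) = f i * ψ b) (i : ι) (b : PS ι A) :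
    PsiOp p ψ f G (thOp f i b) = (p : ℤ_[p]) • thOp f i (PsiOp p ψ f G b) := by
  ext l'
  rw [Pi.smul_apply, padic_smul, thOp_apply, ← sum_pred hz, PsiOp_apply, PsiOp_apply]
  simp only [thOp_apply, mul_add, map_add, Finset.sum_add_distrib]
  rw [sum_shift hz, Finset.mul_sum, Finset.mul_sum, Finset.mul_sum, Finset.mul_sum,
    ← Finset.sum_add_distrib, ← Finset.sum_add_distrib]
  refine Finset.sum_congr rfl fun l _ => ?_
  rw [← hF, ← der_nat, ← der_nat, ← der_nat, ← map_add, ← map_add, Ker_succ, Ker_eq f G l' l i]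
  congr 1
  have := he i (l' i) (l i)
  linear_combination (Rest p f G l' l i * b l) * this

theorem Psi_D {f G F : ι → A} {d : A →ₗ[ℤ_[p]] A} (hd : ∀ a b, d (a * b) = d a * b + a * d b)
    (hz : ∀ i m' m, p * (m' + 1) ≤ m → kap p m' m (f i) (G i) = 0)
    (hk : ∀ i m' m, d (kap p m' m (f i) (G i)) =
      kap p m' (m + 1) (f i) (G i) * d (f i) - kapm p m' m (f i) (G i) * d (F i))
    (ψ : A →ₗ[ℤ_[p]] A) (t : A) (hψ : ∀ b, ψ (d b) = (p : A) * d (ψ (t * b)))
    (hF : ∀ i b, ψ (d (F i) * b) = (p : A) * (d (f i) * ψ (t * b))) (b : PS ι A) :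
    PsiOp p ψ f G (DOp p d f b) = (p : ℤ_[p]) • DOp p d f (PsiOp p ψ f G (t • b)) := by
  ext l'
  rw [Pi.smul_apply, padic_smul, DOp_apply, PsiOp_apply, PsiOp_apply]
  simp only [← sum_pred hz]
  simp only [DOp_apply, mul_add, map_add, Finset.sum_add_distrib, Finset.mul_sum, map_sum]
  rw [Finset.sum_comm (s := Bx p l')]
  simp only [sum_shift hz]
  rw [Finset.sum_comm (t := Bx p l'), Finset.sum_comm (t := Bx p l'),
    ← Finset.sum_add_distrib, ← Finset.sum_add_distrib]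
  refine Finset.sum_congr rfl fun l _ => ?_
  have e1 : Ker p f G l' l * d (b l) = d (Ker p f G l' l * b l) -
      ∑ i, (Ker p f G l' (l + Pi.single i 1) * (d (f i) * b l) -
        d (F i) * (kapm p (l' i) (l i) (f i) (G i) * Rest p f G l' l i * b l)) := by
    rw [hd]
    have : d (Ker p f G l' l) = ∑ i, d (kap p (l' i) (l i) (f i) (G i)) * Rest p f G l' l i :=
      der_prod hd Finset.univ (fun j => kap p (l' j) (l j) (f j) (G j))
    rw [this, Finset.sum_mul]
    have e : ∑ i, d (kap p (l' i) (l i) (f i) (G i)) * Rest p f G l' l i * b l =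
        ∑ i, (Ker p f G l' (l + Pi.single i 1) * (d (f i) * b l) -
        d (F i) * (kapm p (l' i) (l i) (f i) (G i) * Rest p f G l' l i * b l)) :=
      Finset.sum_congr rfl fun i _ => by rw [hk, Ker_succ]; ring
    rw [e]; ring
  rw [e1, map_sub, map_sum, hψ]
  simp only [map_sub, hF, Finset.sum_sub_distrib, Pi.smul_apply, smul_eq_mul]
  have e2 : t * (Ker p f G l' l * b l) = Ker p f G l' l * (t * b l) := by ring
  have e3 : ∀ i, t * (kapm p (l' i) (l i) (f i) (G i) * Rest p f G l' l i * b l) =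
      kapm p (l' i) (l i) (f i) (G i) * Rest p f G l' l i * (t * b l) := fun i => by ring
  simp only [e2, e3]
  ring

end Gen

theorem nu_sum {ι : Type} (s : Finset ι) (l : ι → ℕ) :
    nu (∑ i ∈ s, l i) ≤ ∑ i ∈ s, nu (l i) := by
  classical
  induction s using Finset.induction_on with
  | empty => simp [nu]
  | insert a s ha ih =>
    rw [Finset.sum_insert ha, Finset.sum_insert ha]
    unfold nu at ih ⊢
    omega

section Graded
variable {O A Γ : Type} [CommRing O] [CommRing A] [Algebra O A] [AddCommGroup Γ]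
  (T : Γ → Submodule O A)

theorem gr_pow (h1 : 1 ∈ T 0) (hm : ∀ w w' a b, a ∈ T w → b ∈ T w' → a * b ∈ T (w + w'))
    (w : Γ) (a : A) (ha : a ∈ T w) (n : ℕ) : a ^ n ∈ T (n • w) := by
  induction n with
  | zero => simpa using h1
  | succ n ih => rw [pow_succ, succ_nsmul]; exact hm _ _ _ _ ih ha

theorem mem_sm {E : Type} [AddCommGroup E] [Module O E] (c : O) (M : Submodule O E) (x : E) :
    x ∈ sm c M ↔ ∃ y ∈ M, c • y = x := by
  simp [sm]

theorem gr_prod (h1 : 1 ∈ T 0) (hm : ∀ w w' a b, a ∈ T w → b ∈ T w' → a * b ∈ T (w + w'))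
    {ι : Type} (s : Finset ι) (π : O) (e : ι → ℕ) (w : ι → Γ) (a : ι → A)
    (ha : ∀ i, a i ∈ sm (π ^ e i) (T (w i))) :
    ∏ i ∈ s, a i ∈ sm (π ^ ∑ i ∈ s, e i) (T (∑ i ∈ s, w i)) := by
  classical
  induction s using Finset.induction_on with
  | empty => exact (mem_sm _ _ _).2 ⟨1, by simpa using h1, by simp⟩
  | insert i s hi ih =>
    rw [Finset.prod_insert hi, Finset.sum_insert hi, Finset.sum_insert hi]
    obtain ⟨y, hy, ey⟩ := (mem_sm _ _ _).1 (ha i)
    obtain ⟨z, hz, ez⟩ := (mem_sm _ _ _).1 ih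
    refine (mem_sm _ _ _).2 ⟨y * z, hm _ _ _ _ hy hz, ?_⟩
    rw [← ey, ← ez, pow_add, smul_mul_smul_comm]

end Graded

theorem kap_mem (h1 : K1) {p : ℕ} [Fact p.Prime] (hp : 7 ≤ p) {A Γ : Type} [CommRing A]
    [Algebra ℤ_[p] A] [AddCommGroup Γ] (T : Γ → Submodule ℤ_[p] A) (ho : 1 ∈ T 0)
    (hm : ∀ w w' a b, a ∈ T w → b ∈ T w' → a * b ∈ T (w + w')) (om : Γ) (f G : A)
    (hf : f ∈ T om) (hG : G ∈ T (p • om)) (m' m : ℕ) :
    kap p m' m f G ∈ sm ((p : ℤ_[p]) ^ nu m') (T (p • (m' + 1) • om - (m + 1) • om)) := by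
  unfold kap
  refine Submodule.sum_mem _ fun j _ => ?_
  obtain ⟨e, c, hc⟩ := h1 p hp m' m j
  by_cases h : p * j + (m + 1) ≤ p * (m' + 1)
  · refine (mem_sm _ _ _).2 ⟨c • (f ^ (p * (m' + 1) - (m + 1) - p * j) * G ^ j), ?_, ?_⟩
    · refine Submodule.smul_mem _ _ ?_
      have := hm _ _ _ _ (gr_pow T ho hm _ _ hf (p * (m' + 1) - (m + 1) - p * j))
        (gr_pow T ho hm _ _ hG j)
      convert this using 2
      obtain ⟨n, hn⟩ := Nat.exists_eq_add_of_le h
      have e1 : p * (m' + 1) - (m + 1) - p * j = n := by omega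
      rw [e1, smul_smul, smul_smul, hn, add_nsmul, add_nsmul, mul_comm j p]
      abel
    · rw [hc, smul_smul]
  · have : kc p m' m j = 0 := by
      apply Subtype.ext
      rw [e]; simp [kq, h]
    rw [this, zero_smul]
    exact Submodule.zero_mem _

theorem s2 (h1 : K1) (h2 : K2) (s1 : S1) (s1p : S1p) : S2 := by
  intro p _ hp σ ι _ _ _ _ tor f
  obtain ⟨a1, -, a3, -, a5, a6, a7, -, a9⟩ := s1 ℤ_[p] σ tor
  obtain ⟨-, b2, b3, -⟩ := s1p p σ tor
  have hp1 : 1 ≤ p := by omega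
  set G : ι → Tor ℤ_[p] tor := fun i => divp p (f i ^ p - phi0 tor ℤ_[p] p (f i)) with hG
  have hF : ∀ i, f i ^ p - p * G i = phi0 tor ℤ_[p] p (f i) := by
    intro i; rw [hG]; simp only []; rw [b2]; ring
  have hz : ∀ i m' m, p * (m' + 1) ≤ m → kap p m' m (f i) (G i) = 0 :=
    fun i m' m => (h2 p hp _ (f i) (G i) m' m).2.2
  have hS : stdPsi p tor f = PsiOp p (psi0 tor ℤ_[p] p) f G := rfl
  refine ⟨fun x a b => DOp_smul (a1 x) f a b,
    fun x y b => DOp_comm (a1 x) (a1 y) (a3 x y) f b,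
    fun x i b => DOp_thOp (a1 x) f i b,
    fun a b => Psi_phi _ f G a _ (a6 p hp1 a) b, fun x b => ?_, fun i b => ?_, ?_⟩
  · rw [hS]
    refine Psi_D (F := fun i => phi0 tor ℤ_[p] p (f i)) (a1 x) hz (fun i m' m => ?_) _ _
      (a7 p hp1 x) (fun i c => ?_) b
    · rw [← hF]; exact (h2 p hp _ (f i) (G i) m' m).1 _ (a1 x)
    · rw [a5 p hp1, ← a6 p hp1, ← der_nat]
      congr 1; ring
  · rw [hS]
    refine Psi_th (F := fun i => phi0 tor ℤ_[p] p (f i)) hz (fun i m' m => ?_) _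
      (fun i c => a6 p hp1 _ c) i b
    rw [← hF]; exact (h2 p hp _ (f i) (G i) m' m).2.1
  · intro I Γ _ cv wt om J htf hf
    obtain ⟨c1, -, c3, c4, c5, c6⟩ := a9 I Γ cv wt J
    have tr : ∀ w w' a, a ∈ Tp tor cv wt ℤ_[p] J w → w' = w → a ∈ Tp tor cv wt ℤ_[p] J w' :=
      fun _ _ _ h e => e ▸ h
    refine ⟨fun x w b hb l _ => ?_, fun w b l' hb => ?_⟩
    · have hb' : ∀ l, b l ∈ Tp tor cv wt ℤ_[p] J (w + ∑ i, (l i + 1) • om i - ∑ x, wt x) :=
        fun l => hb l (Set.mem_univ _)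
      rw [DOp_apply]
      refine Submodule.add_mem _ ?_ (Submodule.sum_mem _ fun i _ => ?_)
      · refine tr _ _ _ (c4 _ x _ (hb' l)) ?_
        abel
      · rw [ysh_apply]
        by_cases h : l i = 0
        · simp [h]
        rw [if_neg h]
        refine tr _ _ _ (c3 _ _ _ _ (c4 _ x _ (hf i)) (hb' (l - Pi.single i 1))) ?_
        have e : ∑ j, (l j + 1) • om j =
            om i + ∑ j, ((l - Pi.single i 1 : ι → ℕ) j + 1) • om j := by
          rw [← Finset.add_sum_erase _ _ (Finset.mem_univ i),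
            ← Finset.add_sum_erase _ _ (Finset.mem_univ i), ← add_assoc]
          congr 1
          · have : (l - Pi.single i 1 : ι → ℕ) i + 1 = l i := by
              simp only [Pi.sub_apply, Pi.single_eq_same]; omega
            rw [this, succ_nsmul, add_comm]
          · refine Finset.sum_congr rfl fun j hj => ?_
            simp [Pi.single_eq_of_ne (Finset.ne_of_mem_erase hj)]
        rw [e]; abel
    · have hb' : ∀ l, b l ∈ Tp tor cv wt ℤ_[p] J (p • w + ∑ i, (l i + 1) • om i - ∑ x, wt x) :=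
        fun l => hb l (Set.mem_univ _)
      have hGm : ∀ i, G i ∈ Tp tor cv wt ℤ_[p] J (p • om i) := by
        intro i
        apply b3
        rw [hG]; simp only []; rw [b2]
        exact Submodule.sub_mem _ (gr_pow _ c1 c3 _ _ (hf i) p) (c5 _ p _ (hf i))
      rw [hS, PsiOp_apply]
      refine Submodule.sum_mem _ fun l _ => ?_
      have hk := gr_prod (Tp tor cv wt ℤ_[p] J) c1 c3 Finset.univ (p : ℤ_[p])
        (fun i => nu (l' i)) (fun i => p • (l' i + 1) • om i - (l i + 1) • om i)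
        (fun i => kap p (l' i) (l i) (f i) (G i))
        (fun i => kap_mem h1 hp _ c1 c3 _ _ _ (hf i) (hGm i) _ _)
      obtain ⟨y, hy, ey⟩ := (mem_sm _ _ _).1 hk
      obtain ⟨n, hn⟩ := Nat.exists_eq_add_of_le (nu_sum Finset.univ l')
      have hK : Ker p f G l' l = (p : ℤ_[p]) ^ (∑ i, nu (l' i)) • y := ey.symm
      refine (mem_sm _ _ _).2 ⟨(p : ℤ_[p]) ^ n • psi0 tor ℤ_[p] p (y * b l),
        Submodule.smul_mem _ _ (c6 _ p hp1 htf _ ?_), ?_⟩
      · refine tr _ _ _ (c3 _ _ _ _ hy (hb' l)) ?_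
        rw [Finset.sum_sub_distrib, ← Finset.smul_sum, smul_add]
        abel
      · rw [hK, hn, smul_smul, ← pow_add, smul_mul_assoc, map_smul]

end

end Pool.Agent.MP_ea150c_mp.H83
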