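import Pool.Agent.MP_ea150c_mp.H83.VF
import Pool.Agent.MP_ea150c_mp.H29.RowF1

/-! Vector fields have no cohomology in odd degree (row CH1a). -/

namespace Pool.Agent.MP_ea150c_mp.H83

open Pool.Agent.MP_ea150c_mp.H49 Pool.Agent.MP_ea150c_mp.H49.FrameData

noncomputable section

set_option linter.unusedSectionVars false

section Frame
variable {p : ℕ} [Fact p.Prime] {A B Γ I ι : Type} {σ : I → Type}
  [CommRing A] [Algebra ℤ_[p] A] [AddCommGroup B] [Module A B] [Module ℤ_[p] B]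
  [IsScalarTower ℤ_[p] A B] [AddCommGroup Γ] [LinearOrder I] [Fintype I] [Fintype ι]
  [DecidableEq ι] [∀ j, Fintype (σ j)] [∀ j, DecidableEq (σ j)]
  {F : FrameData p A B Γ I ι σ}

theorem idx_one (j : I) :
    idx σ j 1 = Finset.univ.image fun y : σ j => (Pi.single y 1 : σ j → ℕ) := by
  ext n
  rw [H29.mem_idx, Finset.mem_image]
  constructor
  · rintro ⟨h1, h2⟩
    obtain ⟨y, -, hy⟩ := Finset.exists_ne_zero_of_sum_ne_zero (s := Finset.univ) (f := n)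
      (by omega)
    refine ⟨y, Finset.mem_univ _, funext fun z => ?_⟩
    have e := Finset.add_sum_erase Finset.univ n (Finset.mem_univ y)
    by_cases hz : z = y
    · subst hz; rw [Pi.single_eq_same]; omega
    · rw [Pi.single_eq_of_ne hz]
      have : n z ≤ ∑ x ∈ Finset.univ.erase y, n x :=
        Finset.single_le_sum (fun _ _ => Nat.zero_le _)
          (Finset.mem_erase.2 ⟨hz, Finset.mem_univ _⟩)
      omega
  · rintro ⟨y, -, rfl⟩
    simp

theorem L_one_rep (hF : F.F1) {J : Finset I} {j : I} (hj : j ∈ J) {w : Γ} {P : A →ₗ[ℤ_[p]] B}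
    (hP : P ∈ F.L J w 1) : ∃ β : σ j → B, (∀ y, β y ∈ F.Bl J (w + F.wt j y) 0) ∧
      P = ∑ y, F.D j y ∘ₗ mOp ℤ_[p] A (β y) := by
  obtain ⟨β, h1, h2⟩ := (hF.2.2.2.2.2.2.1 J w 1 j P hj).1 hP
  refine ⟨fun y => β (Pi.single y 1), fun y => ?_, ?_⟩
  · have := h1 (Pi.single y 1) (by rw [idx_one]; exact Finset.mem_image_of_mem _ (Finset.mem_univ _))
    rw [H29.wn_single] at this
    simpa using this
  · rw [h2, idx_one, Finset.sum_image]
    · simp only [H29.Dn_single]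
    · intro y _ z _ h
      by_contra hne
      have := congrFun h y
      simp [Pi.single_eq_of_ne hne] at this

theorem rep_mem {J : Finset I} {j : I} (hj : j ∈ J) {w : Γ} (β : σ j → B)
    (hβ : ∀ y, β y ∈ F.Bl J (w + F.wt j y) 0) :
    ∑ y, F.D j y ∘ₗ mOp ℤ_[p] A (β y) ∈ F.L J w 1 :=
  Submodule.sum_mem _ fun y _ => H29.word_mem (Word.base j y w 0 (β y) hj (hβ y)) le_rfl

theorem rep_apply (hC : F.AxC) (j : I) (β : σ j → B) (g : A) :
    (∑ y, F.D j y ∘ₗ mOp ℤ_[p] A (β y)) g - g • (∑ y, F.D j y ∘ₗ mOp ℤ_[p] A (β y)) 1 =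
      ∑ y, F.d j y g • β y := by
  simp only [LinearMap.sum_apply, LinearMap.comp_apply, H29.mOp_apply, one_smul, hC.Dsmul,
    Finset.smul_sum, Finset.sum_add_distrib]
  abel

end Frame

/-- The value of a first order operator on a function. -/
def EvA (p : ℕ) [Fact p.Prime] (ι A : Type) [CommRing A] [Algebra ℤ_[p] A] :
    A →ₗ[ℤ_[p]] (A →ₗ[ℤ_[p]] PS ι A) →ₗ[ℤ_[p]] A :=
  LinearMap.mk₂ ℤ_[p] (fun g P => (P g - g • P 1) 0)
    (fun g g' P => by simp [add_mul]; ring)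
    (fun c g P => by simp [smul_sub])
    (fun g P Q => by simp; ring)
    (fun c g P => by simp [smul_sub])

theorem EvA_apply (p : ℕ) [Fact p.Prime] (ι A : Type) [CommRing A] [Algebra ℤ_[p] A] (g : A)
    (P : A →ₗ[ℤ_[p]] PS ι A) : EvA p ι A g P = (P g - g • P 1) 0 := rfl

section Model
variable {I τ ι : Type} [LinearOrder I] [Fintype I] [Fintype τ] [DecidableEq τ] [Fintype ι]
  [DecidableEq ι] (M : Model I τ ι) (p : ℕ) [Fact p.Prime]

theorem mem_Bl0 (J : Finset I) (w : Gam I) (b : PS ι (Ainv ℤ_[p] I τ)) :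
    b ∈ M.Bl p J w 0 ↔ b 0 ∈ M.Ap ℤ_[p] J (w + M.w0) ∧ ∀ l, l ≠ 0 → b l = 0 := by
  have key : ∀ l : ι → ℕ, ∑ i, l i ≤ 0 ↔ l = 0 := by
    intro l
    rw [Nat.le_zero, Finset.sum_eq_zero_iff]
    exact ⟨fun h => funext fun i => h i (Finset.mem_univ _), fun h i _ => congrFun h i⟩
  constructor
  · intro h
    refine ⟨?_, fun l hl => ?_⟩
    · have := h 0 (Set.mem_univ _)
      simpa using this
    · have := h l (Set.mem_univ _)
      simpa [key, hl] using this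
  · rintro ⟨h1, h2⟩ l -
    by_cases hl : l = 0
    · subst hl; simpa using h1
    · simp [key, hl, h2 l hl]

theorem single_Bl0 (J : Finset I) (w : Gam I) (a : Ainv ℤ_[p] I τ)
    (ha : a ∈ M.Ap ℤ_[p] J (w + M.w0)) :
    (Pi.single 0 a : PS ι (Ainv ℤ_[p] I τ)) ∈ M.Bl p J w 0 :=
  (mem_Bl0 M p J w _).2 ⟨by simpa using ha, fun l hl => Pi.single_eq_of_ne hl _⟩

/-- The coordinates of the chart `j`. -/
def XA (j : I) (y : Var I τ) : Ainv ℤ_[p] I τ := sA ℤ_[p] τ j (tX torV ℤ_[p] y)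

/-- The inverse of `c_v`. -/
def ciA (τ : Type) [Fintype τ] [DecidableEq τ] (v : I) : Ainv ℤ_[p] I τ :=
  ⟨tXi torV ℤ_[p] (Sum.inl (v, 0)), (mem_Ainv _ _).2 fun j => sj_tXi _ j v⟩

theorem XA_val (j : I) (y : Var I τ) : (XA p j y : Zr ℤ_[p] I τ) = sj ℤ_[p] τ j (tX torV ℤ_[p] y) :=
  rfl

theorem XA_c (j v : I) :
    (XA p j (Sum.inl (v, 0) : Var I τ) : Zr ℤ_[p] I τ) = tX torV ℤ_[p] (Sum.inl (v, 0)) := by
  rw [XA_val, sj_tX]; simp [gshift]

theorem XA_shift (k j : I) : (XA p k : Var I τ → _) =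
    gshift (XA p j (Sum.inl (k, 2)) * ciA p τ k) (XA p j (Sum.inl (k, 1)) * ciA p τ k) (XA p j) := by
  funext y
  apply Subtype.ext
  have h1 := map_gshift ((Ainv ℤ_[p] I τ).val : Ainv ℤ_[p] I τ →+* Zr ℤ_[p] I τ)
    (XA p j (Sum.inl (k, 2)) * ciA p τ k) (XA p j (Sum.inl (k, 1)) * ciA p τ k) (XA p j) y
  have h2 := map_gshift (sj ℤ_[p] τ j : Zr ℤ_[p] I τ →+* Zr ℤ_[p] I τ) (nZ ℤ_[p] τ k)
    (nZ' ℤ_[p] τ k) (tX torV ℤ_[p]) y
  simp only [RingHom.coe_coe] at h1 h2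
  refine Eq.trans ?_ h1.symm
  rw [XA_val, ← sj_sj ℤ_[p] j k, sj_tX, h2, nZ, nZ', map_mul, map_mul, sj_tXi]
  rfl

theorem frame_x (h : M.Good) (j : I) (y : Sl τ j) : (M.frame p h).x j y = XA p j y.1 := by
  change sA ℤ_[p] τ j (inS ℤ_[p] τ j (tX _ ℤ_[p] y)) = _
  rw [inS, tlift_tX]; rfl

theorem XA_zero (j : I) (y : Var I τ) (hy : ¬ (y ≠ Sum.inl (j, 1) ∧ y ≠ Sum.inl (j, 2))) :
    XA p j y = 0 := by
  have h := tX_mul_tXi (Λ := ℤ_[p]) (torV : Var I τ → Bool) (Sum.inl (j, 0)) (by simp [torV])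
  apply Subtype.ext
  rw [XA_val, sj_tX]
  rcases not_and_or.1 hy with h1 | h1 <;> rw [not_not.1 h1]
  · simp only [gshift, Fin.reduceEq, if_false, if_true, nZ', ZeroMemClass.coe_zero]
    linear_combination (-tX torV ℤ_[p] (Sum.inl (j, 1))) * h
  · simp only [gshift, Fin.reduceEq, if_false, if_true, nZ, ZeroMemClass.coe_zero]
    linear_combination (-tX torV ℤ_[p] (Sum.inl (j, 2))) * h

variable {M p}

theorem ev_rep {h : M.Good} (hC : (M.frame p h).AxC) (j : I) (β : Sl τ j → PS ι (Ainv ℤ_[p] I τ))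
    (g : Ainv ℤ_[p] I τ) :
    EvA p ι _ g (∑ y, (M.frame p h).D j y ∘ₗ mOp ℤ_[p] _ (β y)) =
      ∑ y, (M.frame p h).d j y g * β y 0 := by
  rw [EvA_apply, rep_apply hC]
  simp [Finset.sum_apply]

theorem ev_rep_x {h : M.Good} (hC : (M.frame p h).AxC) (j : I)
    (β : Sl τ j → PS ι (Ainv ℤ_[p] I τ)) (y : Sl τ j) :
    EvA p ι _ (XA p j y.1) (∑ y, (M.frame p h).D j y ∘ₗ mOp ℤ_[p] _ (β y)) = β y 0 := by
  rw [ev_rep hC, ← frame_x M p h]
  simp [hC.dx]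

/-- The vector fields of a model. -/
def vfd (cx : CX) (h : M.Good) (hL : (M.frame p h).AxL) (hC : (M.frame p h).AxC)
    (hF : (M.frame p h).F1) : VFD ℤ_[p] (Ainv ℤ_[p] I τ)
      (Ainv ℤ_[p] I τ →ₗ[ℤ_[p]] PS ι (Ainv ℤ_[p] I τ)) (Gam I) I τ where
  L J := (M.frame p h).L J 0 1
  Ap := M.Ap ℤ_[p]
  Ev := EvA p ι _
  X := XA p
  c v := XA p v (Sum.inl (v, 0))
  ci := ciA p τ
  W y := M.wtv y + M.w0
  wc v := M.wtv (Sum.inl (v, 0))
  monoL J J' hJ := hF.1 J J' 0 1 1 hJ le_rfl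
  monoA w J J' hJ := hL.monoA J J' w hJ
  mul := hL.mul
  hc J v := by
    change (XA p v (Sum.inl (v, 0) : Var I τ) : Zr ℤ_[p] I τ) ∈ M.Zp ℤ_[p] J _
    rw [XA_c]
    exact ((cx I τ ι M h ℤ_[p]).2.2.2.2.2.2.2.2.2.1 J).2 _
  hci J j hj := ((cx I τ ι M h ℤ_[p]).2.2.2.2.2.2.2.2.1 J j hj).2.2
  cci v := by
    apply Subtype.ext
    rw [MulMemClass.coe_mul, XA_c]
    exact tX_mul_tXi torV _ (by simp [torV])
  Xc j v := Subtype.ext ((XA_c p j v).trans (XA_c p v v).symm)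
  hX := XA_shift p
  leib := by
    rintro J ⟨j, hj⟩ P hP g g'
    obtain ⟨β, -, rfl⟩ := L_one_rep hF hj hP
    simp only [ev_rep hC, hC.dmul, Finset.sum_mul, Finset.mul_sum, ← Finset.sum_add_distrib]
    exact Finset.sum_congr rfl fun y _ => by ring
  mem := by
    intro J j hj P hP y
    by_cases hy : y ≠ Sum.inl (j, 1) ∧ y ≠ Sum.inl (j, 2)
    · obtain ⟨β, hβ, rfl⟩ := L_one_rep hF hj hP
      rw [ev_rep_x hC j β ⟨y, hy⟩]
      have := ((mem_Bl0 M p J _ _).1 (hβ ⟨y, hy⟩)).1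
      rwa [zero_add] at this
    · rw [XA_zero p j y hy, map_zero]
      exact Submodule.zero_mem _
  ex := by
    intro J j hj β hβ h1 h2
    refine ⟨_, rep_mem hj (fun y => Pi.single 0 (β y.1)) (fun y => single_Bl0 M p J _ _ ?_),
      fun y => ?_⟩
    · rw [zero_add]; exact hβ y.1
    · by_cases hy : y ≠ Sum.inl (j, 1) ∧ y ≠ Sum.inl (j, 2)
      · rw [ev_rep_x hC j _ ⟨y, hy⟩, Pi.single_eq_same]
      · rw [XA_zero p j y hy, map_zero, LinearMap.zero_apply]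
        rcases not_and_or.1 hy with h3 | h3 <;> rw [not_not.1 h3]
        · exact h1.symm
        · exact h2.symm
  inj := by
    intro J j hj P hP h0
    obtain ⟨β, hβ, rfl⟩ := L_one_rep hF hj hP
    refine Finset.sum_eq_zero fun y _ => ?_
    have : β y = 0 := by
      funext l
      by_cases hl : l = 0
      · rw [hl, ← ev_rep_x hC j β y, h0]; rfl
      · exact ((mem_Bl0 M p J _ _).1 (hβ y)).2 l hl
    rw [this, H29.mOp_zero, LinearMap.comp_zero]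

theorem off_he {w : Gam I} (h : M.CechOffP p w) : HE (p : ℤ_[p]) fun J => M.Ap ℤ_[p] J w :=
  fun x hx ho hd => h x hx (fun J hJ => ho J (by rw [hJ]; decide)) hd

theorem bot_ha {w : Gam I} (h : M.CechP p w ⊥) : HA (p : ℤ_[p]) fun J => M.Ap ℤ_[p] J w := by
  intro x hx hd
  obtain ⟨a, ha, z, hz, hr⟩ := h x hx hd
  rw [Submodule.mem_bot] at ha
  subst ha
  refine ⟨z, hz, ?_⟩
  have e : (fun J : Finset I => (0 : Ainv ℤ_[p] I τ) * cc ℤ_[p] τ J) = 0 := by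
    funext J; simp
  rwa [e, sub_zero] at hr

end Model

theorem ch1a (cx : CX) (c1 : C1) : CH1a := by
  intro I τ ι _ _ _ _ _ _ M h p _ hw hL hC hF o0 pa pd hv ht
  rcases isEmpty_or_nonempty I with hI | ⟨⟨j0⟩⟩
  · exact HE.zero (c := (p : ℤ_[p])) fun J ⟨j, _⟩ => hI.elim j
  have tfB := hL.tf
  have tf : ∀ a : Ainv ℤ_[p] I τ, (p : ℤ_[p]) • a = 0 → a = 0 := fun a ha =>
    congrFun (tfB (fun _ => a) (funext fun _ => ha)) 0
  have hV : HE (I := I) (E := Ainv ℤ_[p] I τ →ₗ[ℤ_[p]] PS ι (Ainv ℤ_[p] I τ)) (p : ℤ_[p])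
      (vfd cx h hL hC hF).L := by
    refine (vfd cx h hL hC hF).he c1 _ tf j0 (0, 0, 2, 4) (0, 0, 4, 2) (fun v => ?_) (fun v => ?_)
      ?_ (fun v => ?_) (fun v => ?_) (fun v => ?_) (bot_ha pa) (bot_ha pd)
    · simp [vfd, hw, Model.wtv]
    · simp [vfd, hw, Model.wtv]
    · rintro (v | s)
      · have e : (vfd cx h hL hC hF).W (VFD.glob (Sum.inl v)) = (Pi.single v 1, 0, 1, 1) := by
          simp [vfd, hw, Model.wtv, VFD.glob]
        rw [e]; exact off_he (hv v).1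
      · have e : (vfd cx h hL hC hF).W (VFD.glob (Sum.inr s)) =
            (Pi.single (M.vert s) 1, M.dil s, 2, 2) := by
          simp [vfd, hw, Model.wtv, VFD.glob]
        rw [e]; exact off_he (ht s)
    · have e : (vfd cx h hL hC hF).W (Sum.inl (v, 1)) = (Pi.single v 1, 0, 1, 3) := by
        simp [vfd, hw, Model.wtv]
      rw [e]; exact bot_ha (hv v).2.1
    · have e : (vfd cx h hL hC hF).W (Sum.inl (v, 2)) = (Pi.single v 1, 0, 3, 1) := by
        simp [vfd, hw, Model.wtv]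
      rw [e]; exact bot_ha (hv v).2.2.1
    · have e : (vfd cx h hL hC hF).W (Sum.inl (v, 3)) = (Pi.single v 1, 0, 3, 3) := by
        simp [vfd, hw, Model.wtv]
      rw [e]; exact off_he (hv v).2.2.2
  have mono : ∀ J J', J ⊆ J' → (M.frame p h).Lt J 1 ≤ (M.frame p h).Lt J' 1 :=
    fun J J' hJ z hz => ⟨hF.1 J J' 0 1 1 hJ le_rfl hz.1,
      fun i hi => hL.monoL J J' 0 0 hJ (hz.2 i hi)⟩
  refine HE.ext c1 mono (LinearMap.fst _ _ _) (fun J _ z hz => hz.1)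
    (fun J _ P hP => ⟨(P, 0), ⟨hP, Submodule.zero_mem _⟩, rfl⟩)
    (fun P hP => LinearMap.ext fun r => tfB _ (LinearMap.congr_fun hP r)) hV ?_
  refine HE.ext c1 (fun J J' hJ => inf_le_inf_right _ (mono J J' hJ))
    (LinearMap.pi fun i => LinearMap.proj 0 ∘ₗ LinearMap.proj i ∘ₗ LinearMap.snd _ _ _) ?_ ?_
    (fun e he => funext fun i => tf _ (congrFun he i))
    (HE.pi (M := fun (_ : ι) J => M.Ap ℤ_[p] J (0, 0, 2, 2)) fun _ => off_he o0) (HE.zero ?_)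
  · rintro J - z ⟨hz, -⟩ i -
    have := ((mem_Bl0 M p J 0 (z.2 i)).1 (hz.2 i (Set.mem_univ _))).1
    rwa [zero_add, hw] at this
  · intro J _ β hβ
    refine ⟨(0, fun i => Pi.single 0 (β i)), ⟨⟨Submodule.zero_mem _, fun i _ => ?_⟩, rfl⟩,
      funext fun i => ?_⟩
    · exact single_Bl0 M p J 0 _ (by rw [zero_add, hw]; exact hβ i (Set.mem_univ _))
    · simp
  · rintro J - z ⟨⟨hz, h1⟩, h2⟩
    refine Prod.ext h1 (funext fun i => funext fun l => ?_)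
    by_cases hl : l = 0
    · rw [hl]; exact congrFun h2 i
    · exact ((mem_Bl0 M p J 0 (z.2 i)).1 (hz.2 i (Set.mem_univ _))).2 l hl

end

end Pool.Agent.MP_ea150c_mp.H83
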