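import Pool.Agent.MP_ea150c_mp.H83.Ext

/-! Vector fields: the filtration by the values on the coordinates. -/

namespace Pool.Agent.MP_ea150c_mp.H83

open Pool.Agent.MP_ea150c_mp.H49

noncomputable section

set_option linter.unusedSectionVars false

/-- Abstract vector fields on the charts. -/
structure VFD (O A E Γ I τ : Type) [CommRing O] [CommRing A] [Algebra O A] [AddCommGroup E]
    [Module O E] [AddCommGroup Γ] where
  L : Finset I → Submodule O E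
  Ap : Finset I → Γ → Submodule O A
  Ev : A →ₗ[O] E →ₗ[O] A
  X : I → Var I τ → A
  c : I → A
  ci : I → A
  W : Var I τ → Γ
  wc : I → Γ
  monoL : ∀ J J', J ⊆ J' → L J ≤ L J'
  monoA : ∀ w J J', J ⊆ J' → Ap J w ≤ Ap J' w
  mul : ∀ J w w' a b, a ∈ Ap J w → b ∈ Ap J w' → a * b ∈ Ap J (w + w')
  hc : ∀ J v, c v ∈ Ap J (wc v)
  hci : ∀ J j, j ∈ J → ci j ∈ Ap J (-wc j)
  cci : ∀ v, c v * ci v = 1
  Xc : ∀ j v, X j (Sum.inl (v, 0)) = c v
  hX : ∀ k j, X k = gshift (X j (Sum.inl (k, 2)) * ci k) (X j (Sum.inl (k, 1)) * ci k) (X j)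
  leib : ∀ J, J.Nonempty → ∀ P ∈ L J, ∀ g g', Ev (g * g') P = Ev g P * g' + g * Ev g' P
  mem : ∀ J j, j ∈ J → ∀ P ∈ L J, ∀ y, Ev (X j y) P ∈ Ap J (W y)
  ex : ∀ J j, j ∈ J → ∀ β : Var I τ → A, (∀ y, β y ∈ Ap J (W y)) → β (Sum.inl (j, 1)) = 0 →
    β (Sum.inl (j, 2)) = 0 → ∃ P ∈ L J, ∀ y, Ev (X j y) P = β y
  inj : ∀ J j, j ∈ J → ∀ P ∈ L J, (∀ y, Ev (X j y) P = 0) → P = 0

namespace VFD
variable {O A E Γ I τ : Type} [CommRing O] [CommRing A] [Algebra O A] [AddCommGroup E]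
  [Module O E] [AddCommGroup Γ] [LinearOrder I] (V : VFD O A E Γ I τ)

theorem X1 (k j v : I) : V.X k (Sum.inl (v, 1)) =
    V.X j (Sum.inl (v, 1)) - V.X j (Sum.inl (k, 1)) * V.ci k * V.c v := by
  rw [V.hX k j]; simp [gshift, V.Xc]

theorem X2 (k j v : I) : V.X k (Sum.inl (v, 2)) =
    V.X j (Sum.inl (v, 2)) - V.X j (Sum.inl (k, 2)) * V.ci k * V.c v := by
  rw [V.hX k j]; simp [gshift, V.Xc]

theorem X3 (k j v : I) : V.X k (Sum.inl (v, 3)) =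
    V.X j (Sum.inl (v, 3)) + V.X j (Sum.inl (k, 2)) * V.ci k * V.X j (Sum.inl (v, 1)) +
      V.X j (Sum.inl (k, 1)) * V.ci k * V.X j (Sum.inl (v, 2)) -
      V.X j (Sum.inl (k, 2)) * V.ci k * (V.X j (Sum.inl (k, 1)) * V.ci k) * V.c v := by
  rw [V.hX k j]; simp [gshift, V.Xc]

theorem Xt (k j : I) (s : τ) : V.X k (Sum.inr s) = V.X j (Sum.inr s) := by
  rw [V.hX k j]; rfl

/-- The map `γ ↦ (c_u γ_v - c_v γ_u)`. -/
def q : (I → A) →ₗ[O] (I × I → A) :=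
  LinearMap.pi fun uv => LinearMap.mulLeft O (V.c uv.1) ∘ₗ LinearMap.proj uv.2 -
    LinearMap.mulLeft O (V.c uv.2) ∘ₗ LinearMap.proj uv.1

theorem q_apply (γ : I → A) (uv : I × I) :
    V.q γ uv = V.c uv.1 * γ uv.2 - V.c uv.2 * γ uv.1 := rfl

/-- The map `ν ↦ (c_v ν)`. -/
def κ : A →ₗ[O] (I → A) := LinearMap.pi fun v => LinearMap.mulLeft O (V.c v)

theorem κ_apply (ν : A) (v : I) : V.κ ν v = V.c v * ν := rfl

theorem c_cancel {j : I} {a : A} (h : V.c j * a = 0) : a = 0 := by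
  have := V.cci j
  linear_combination V.ci j * h - a * this

theorem ha_q (c1 : C1) (π : O) (tf : ∀ a : A, π • a = 0 → a = 0) (j0 : I) (ω : Γ) (W : I → Γ)
    (hW : ∀ v, W v = ω + V.wc v) (h' : HA π fun J => V.Ap J ω)
    (h : ∀ v, HA π fun J => V.Ap J (W v)) :
    HA π fun J => (Submodule.pi Set.univ fun v => V.Ap J (W v)).map V.q := by
  refine HA.quot c1 (N' := fun J => V.Ap J ω)
    (N := fun J => Submodule.pi Set.univ fun v => V.Ap J (W v))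
    (fun J J' hJ γ hγ v hv => V.monoA _ J J' hJ (hγ v hv)) V.κ V.q ?_ ?_ ?_ ?_ ?_ h'
    (HA.pi (M := fun v J => V.Ap J (W v)) h)
  · intro J _ x hx v _
    change V.c v * x ∈ V.Ap J (W v)
    rw [hW, add_comm]
    exact V.mul _ _ _ _ _ (V.hc J v) hx
  · intro x
    funext uv
    simp only [q_apply, κ_apply, Pi.zero_apply]; ring
  · intro x hx
    exact V.c_cancel (congrFun hx j0)
  · rintro J ⟨j, hj⟩ γ hγ h0
    refine ⟨V.ci j * γ j, ?_, ?_⟩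
    · have := V.mul _ _ _ _ _ (V.hci J j hj) (hγ j (Set.mem_univ _))
      rwa [hW, show -V.wc j + (ω + V.wc j) = ω by abel] at this
    · funext v
      have h1 := congrFun h0 (j, v)
      have h2 := V.cci j
      simp only [q_apply, Pi.zero_apply] at h1
      rw [κ_apply]
      linear_combination (-V.ci j) * h1 + γ v * h2
  · intro e he
    funext uv
    exact tf _ (congrFun he uv)

/-- Values on the invariants `c_u x_v - c_v x_u`. -/
def πr (j0 : I) (r : Fin 4) : E →ₗ[O] (I × I → A) :=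
  LinearMap.pi fun uv =>
    V.Ev (V.c uv.1 * V.X j0 (Sum.inl (uv.2, r)) - V.c uv.2 * V.X j0 (Sum.inl (uv.1, r)))

theorem πr_eq (j0 j : I) {r : Fin 4} (hr : r = 1 ∨ r = 2) {J : Finset I} (hJ : J.Nonempty) {P : E}
    (hP : P ∈ V.L J) (h0 : ∀ v, V.Ev (V.c v) P = 0) :
    V.πr j0 r P = V.q fun v => V.Ev (V.X j (Sum.inl (v, r))) P := by
  funext uv
  have e : V.c uv.1 * V.X j0 (Sum.inl (uv.2, r)) - V.c uv.2 * V.X j0 (Sum.inl (uv.1, r)) =
      V.c uv.1 * V.X j (Sum.inl (uv.2, r)) - V.c uv.2 * V.X j (Sum.inl (uv.1, r)) := by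
    rcases hr with rfl | rfl
    · rw [V.X1 j0 j uv.1, V.X1 j0 j uv.2]; ring
    · rw [V.X2 j0 j uv.1, V.X2 j0 j uv.2]; ring
  rw [πr, LinearMap.pi_apply, e]
  simp only [q_apply, map_sub, LinearMap.sub_apply, V.leib J hJ P hP, h0, zero_mul, zero_add]

theorem Xjj (j : I) {r : Fin 4} (hr : r = 1 ∨ r = 2) : V.X j (Sum.inl (j, r)) = 0 := by
  have h := V.cci j
  rcases hr with rfl | rfl
  · have := V.X1 j j j
    linear_combination this - V.X j (Sum.inl (j, 1)) * h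
  · have := V.X2 j j j
    linear_combination this - V.X j (Sum.inl (j, 2)) * h

theorem πr_zero (j0 j : I) {r : Fin 4} (hr : r = 1 ∨ r = 2) {J : Finset I} (hJ : J.Nonempty)
    {P : E} (hP : P ∈ V.L J) (h0 : ∀ v, V.Ev (V.c v) P = 0) (h : V.πr j0 r P = 0) (v : I) :
    V.Ev (V.X j (Sum.inl (v, r))) P = 0 := by
  rw [V.πr_eq j0 j hr hJ hP h0] at h
  have h1 := congrFun h (j, v)
  simp only [q_apply, V.Xjj j hr, map_zero, LinearMap.zero_apply, mul_zero, sub_zero,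
    Pi.zero_apply] at h1
  exact V.c_cancel h1

/-- A family supported on the variables of one kind. -/
def kind (r : Fin 4) (γ : I → A) : Var I τ → A
  | Sum.inl (v, s) => if s = r then γ v else 0
  | Sum.inr _ => 0

theorem ex_kind {J : Finset I} {j : I} (hj : j ∈ J) (r : Fin 4) (γ : I → A)
    (hγ : ∀ v, γ v ∈ V.Ap J (V.W (Sum.inl (v, r)))) (h0 : r = 1 ∨ r = 2 → γ j = 0) :
    ∃ P ∈ V.L J, ∀ y, V.Ev (V.X j y) P = kind r γ y := by
  refine V.ex J j hj _ ?_ ?_ ?_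
  · rintro (⟨v, s⟩ | s)
    · by_cases h : s = r
      · subst h; simpa [kind] using hγ v
      · simp [kind, h]
    · simp [kind]
  · by_cases h : 1 = r
    · simp [kind, h0 (Or.inl h.symm)]
    · simp [kind, h]
  · by_cases h : 2 = r
    · simp [kind, h0 (Or.inr h.symm)]
    · simp [kind, h]

/-- The globally defined coordinates. -/
def glob : I ⊕ τ → Var I τ := Sum.elim (fun v => Sum.inl (v, 0)) Sum.inr

theorem X_glob (k j : I) (y : I ⊕ τ) : V.X k (glob y) = V.X j (glob y) := by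
  rcases y with v | s
  · simp [glob, V.Xc]
  · exact V.Xt k j s

/-- Values on the global coordinates. -/
def π0 (j0 : I) : E →ₗ[O] (I ⊕ τ → A) := LinearMap.pi fun y => V.Ev (V.X j0 (glob y))

theorem π0_c {j0 : I} {P : E} (h : V.π0 j0 P = 0) (v : I) : V.Ev (V.c v) P = 0 := by
  have := congrFun h (Sum.inl v)
  simpa [π0, glob, V.Xc] using this

theorem π0_kind (j0 j : I) {r : Fin 4} (hr : r ≠ 0) {γ : I → A} {P : E}
    (h : ∀ y, V.Ev (V.X j y) P = kind r γ y) : V.π0 j0 P = 0 := by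
  funext y
  simp only [π0, LinearMap.pi_apply, V.X_glob j0 j, h]
  rcases y with v | s
  · simp [glob, kind, hr.symm]
  · simp [glob, kind]

theorem ex_q (j0 : I) {r : Fin 4} (hr : r = 1 ∨ r = 2) (ω : Γ)
    (hW : ∀ v, V.W (Sum.inl (v, r)) = ω + V.wc v) {J : Finset I} (hJ : J.Nonempty)
    (γ : I → A) (hγ : ∀ v, γ v ∈ V.Ap J (V.W (Sum.inl (v, r)))) :
    ∃ P ∈ V.L J, V.π0 j0 P = 0 ∧ V.πr j0 r P = V.q γ ∧
      ∀ s, s = 1 ∨ s = 2 → s ≠ r → V.πr j0 s P = 0 := by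
  obtain ⟨j, hj⟩ := hJ
  have h2 := V.cci j
  obtain ⟨P, hP, e⟩ := V.ex_kind hj r (fun v => γ v - V.c v * (V.ci j * γ j)) (fun v => by
    refine Submodule.sub_mem _ (hγ v) ?_
    have := V.mul _ _ _ _ _ (V.hc J v) (V.mul _ _ _ _ _ (V.hci J j hj) (hγ j))
    rwa [hW j, show V.wc v + (-V.wc j + (ω + V.wc j)) = ω + V.wc v by abel, ← hW v] at this)
    (fun _ => by linear_combination (-γ j) * h2)
  have hr0 : r ≠ 0 := by rcases hr with rfl | rfl <;> decide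
  have h0 := V.π0_kind j0 j hr0 e
  refine ⟨P, hP, h0, ?_, fun s hs hsr => ?_⟩
  · rw [V.πr_eq j0 j hr ⟨j, hj⟩ hP (V.π0_c h0)]
    funext uv
    simp only [q_apply, e, kind, if_true]; ring
  · rw [V.πr_eq j0 j hs ⟨j, hj⟩ hP (V.π0_c h0)]
    funext uv
    simp [q_apply, e, kind, hsr]

theorem ev_b (j0 j : I) {J : Finset I} (hJ : J.Nonempty) {P : E} (hP : P ∈ V.L J)
    (h0 : V.π0 j0 P = 0) (h1 : V.πr j0 1 P = 0) (h2 : V.πr j0 2 P = 0) (v : I) :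
    V.Ev (V.X j0 (Sum.inl (v, 3))) P = V.Ev (V.X j (Sum.inl (v, 3))) P := by
  have a0 := V.π0_c h0
  have a1 := V.πr_zero j0 j (Or.inl rfl) hJ hP a0 h1
  have a2 := V.πr_zero j0 j (Or.inr rfl) hJ hP a0 h2
  have l := V.leib J hJ P hP
  have a3 : V.Ev (V.ci j0) P = 0 := by
    have e1 := l 1 1
    have e2 := l (V.c j0) (V.ci j0)
    rw [V.cci, a0] at e2
    rw [mul_one, mul_one, one_mul] at e1
    apply V.c_cancel (j := j0)
    linear_combination -e2 - e1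
  rw [V.X3 j0 j v]
  simp only [map_add, map_sub, LinearMap.add_apply, LinearMap.sub_apply, l, a0, a1, a2, a3,
    mul_zero, zero_mul, add_zero, sub_zero]

theorem he (c1 : C1) (π : O) (tf : ∀ a : A, π • a = 0 → a = 0) (j0 : I) (ω ω' : Γ)
    (hW : ∀ v, V.W (Sum.inl (v, 1)) = ω + V.wc v) (hW' : ∀ v, V.W (Sum.inl (v, 2)) = ω' + V.wc v)
    (H0 : ∀ y, HE π fun J => V.Ap J (V.W (glob y)))
    (H1 : ∀ v, HA π fun J => V.Ap J (V.W (Sum.inl (v, 1))))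
    (H2 : ∀ v, HA π fun J => V.Ap J (V.W (Sum.inl (v, 2))))
    (H3 : ∀ v, HE π fun J => V.Ap J (V.W (Sum.inl (v, 3))))
    (Hω : HA π fun J => V.Ap J ω) (Hω' : HA π fun J => V.Ap J ω') : HE π V.L := by
  have tfp : ∀ (κ : Type) (e : κ → A), π • e = 0 → e = 0 :=
    fun κ e he => funext fun i => tf _ (congrFun he i)
  refine HE.ext c1 V.monoL (V.π0 j0) ?_ ?_ (tfp _)
    (HE.pi (M := fun y J => V.Ap J (V.W (glob y))) H0) ?_
  · rintro J ⟨j, hj⟩ P hP y -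
    simp only [π0, LinearMap.pi_apply, V.X_glob j0 j]
    exact V.mem J j hj P hP _
  · rintro J ⟨j, hj⟩ β hβ
    obtain ⟨P, hP, e⟩ := V.ex J j hj (Sum.elim (fun y => if y.2 = 0 then β (Sum.inl y.1) else 0)
      (fun s => β (Sum.inr s))) (by
        rintro (⟨v, s⟩ | s)
        · by_cases h : s = 0
          · subst h; simpa [glob] using hβ (Sum.inl v) (Set.mem_univ _)
          · simp [h]
        · simpa [glob] using hβ (Sum.inr s) (Set.mem_univ _)) (by simp) (by simp)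
    refine ⟨P, hP, funext fun y => ?_⟩
    simp only [π0, LinearMap.pi_apply, V.X_glob j0 j, e]
    rcases y with v | s <;> simp [glob]
  refine HE.ext c1 (fun J J' h => inf_le_inf_right _ (V.monoL J J' h)) (V.πr j0 1) ?_ ?_ (tfp _)
    (V.ha_q c1 π tf j0 ω _ hW Hω H1).he ?_
  · rintro J ⟨j, hj⟩ P ⟨hP, h0⟩
    exact ⟨_, fun v _ => V.mem J j hj P hP _,
      (V.πr_eq j0 j (Or.inl rfl) ⟨j, hj⟩ hP (V.π0_c h0)).symm⟩
  · rintro J hJ _ ⟨γ, hγ, rfl⟩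
    obtain ⟨P, hP, h0, h1, -⟩ := V.ex_q j0 (Or.inl rfl) ω hW hJ γ fun v => hγ v (Set.mem_univ _)
    exact ⟨P, ⟨hP, h0⟩, h1⟩
  refine HE.ext c1 (fun J J' h => inf_le_inf_right _ (inf_le_inf_right _ (V.monoL J J' h)))
    (V.πr j0 2) ?_ ?_ (tfp _) (V.ha_q c1 π tf j0 ω' _ hW' Hω' H2).he ?_
  · rintro J ⟨j, hj⟩ P ⟨⟨hP, h0⟩, -⟩
    exact ⟨_, fun v _ => V.mem J j hj P hP _,
      (V.πr_eq j0 j (Or.inr rfl) ⟨j, hj⟩ hP (V.π0_c h0)).symm⟩
  · rintro J hJ _ ⟨γ, hγ, rfl⟩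
    obtain ⟨P, hP, h0, h1, h2⟩ :=
      V.ex_q j0 (Or.inr rfl) ω' hW' hJ γ fun v => hγ v (Set.mem_univ _)
    exact ⟨P, ⟨⟨hP, h0⟩, h2 1 (Or.inl rfl) (by decide)⟩, h1⟩
  refine HE.ext c1 (fun J J' h => inf_le_inf_right _ (inf_le_inf_right _
    (inf_le_inf_right _ (V.monoL J J' h))))
    (LinearMap.pi fun v => V.Ev (V.X j0 (Sum.inl (v, 3)))) ?_ ?_ (tfp _)
    (HE.pi (M := fun v J => V.Ap J (V.W (Sum.inl (v, 3)))) H3) (HE.zero ?_)
  · rintro J ⟨j, hj⟩ P ⟨⟨⟨hP, h0⟩, h1⟩, h2⟩ v -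
    rw [LinearMap.pi_apply, V.ev_b j0 j ⟨j, hj⟩ hP h0 h1 h2]
    exact V.mem J j hj P hP _
  · rintro J ⟨j, hj⟩ γ hγ
    obtain ⟨P, hP, e⟩ := V.ex_kind hj 3 γ (fun v => hγ v (Set.mem_univ _))
      (fun h => absurd h (by decide))
    have h0 := V.π0_kind j0 j (by decide) e
    have h12 : ∀ r, r = 1 ∨ r = 2 → V.πr j0 r P = 0 := by
      intro r hr
      rw [V.πr_eq j0 j hr ⟨j, hj⟩ hP (V.π0_c h0)]
      funext uv
      rcases hr with rfl | rfl <;> simp [q_apply, e, kind]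
    refine ⟨P, ⟨⟨⟨hP, h0⟩, h12 1 (Or.inl rfl)⟩, h12 2 (Or.inr rfl)⟩, funext fun v => ?_⟩
    rw [LinearMap.pi_apply, V.ev_b j0 j ⟨j, hj⟩ hP h0 (h12 1 (Or.inl rfl)) (h12 2 (Or.inr rfl)), e]
    simp [kind]
  · rintro J ⟨j, hj⟩ P ⟨⟨⟨⟨hP, h0⟩, h1⟩, h2⟩, h3⟩
    refine V.inj J j hj P hP ?_
    rintro (⟨v, s⟩ | s)
    · fin_cases s
      · simpa [V.Xc] using V.π0_c h0 v
      · exact V.πr_zero j0 j (Or.inl rfl) ⟨j, hj⟩ hP (V.π0_c h0) h1 v
      · exact V.πr_zero j0 j (Or.inr rfl) ⟨j, hj⟩ hP (V.π0_c h0) h2 v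
      · exact (V.ev_b j0 j ⟨j, hj⟩ hP h0 h1 h2 v).symm.trans (congrFun h3 v)
    · rw [V.Xt j j0]
      exact congrFun h0 (Sum.inr s)

end VFD

end

end Pool.Agent.MP_ea150c_mp.H83
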